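import Pool.Agent.V8H78.DB.Gen
import Pool.Agent.TH900.YM.Meas

set_option autoImplicit false

/-!
# The uniform distribution of the multiples of `ζ(9), ζ(11), …, ζ(21)`

Let `D_N(x)` be the discrepancy of `x, 2 x, …, N x` modulo one. By Weyl's theorem `x` is irrational if and only if
`D_N(x) → 0`. For `ζ(9)`, and for each of the other odd values up to `ζ(21)`, it is not known that `D_N → 0`; it is known that
one of these seven numbers is irrational. We show that the seven numbers cannot fail together at any `N`, with explicit power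
savings, and also with lengths `N_9, …, N_21` which have nothing to do with each other:

1. `N_j D_j ^ 1037 ∏_(i ≠ j) D_i ^ 1038 ≤ C ∏_i (1 + log N_i) ^ 1038` for one `j`, where `D_i = D_(N_i)(ζ(i))`, for ALL
   lengths `N_9, …, N_21`;
2. for every `N` one of the seven numbers has `D_N ≤ C (1 + log N) ^ (7266/7265) N ^ (-1/7265)`;
3. for each of the seven numbers, for example `ζ(9)`, and each `δ > 0`: at every `N` at which the other six discrepancies are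
   at least `δ` one has `D_N(ζ(9)) ≤ C (1 + log N) ^ 7 N ^ (-1/1038)`;
4. inhomogeneous approximation: if `N_j ρ_j ^ 1037 ∏_(i ≠ j) ρ_i ^ 1038 > C` for all `j`, then for all real targets
   `y_9, …, y_21` there are `j`, `1 ≤ n ≤ N_j` and an integer `m` with `|n ζ(j) - m - y_j| < ρ_j`;
5. for every `N` there is one of the seven numbers, `ζ(j)`, such that for every real `y` some `n ζ(j) - m`, `1 ≤ n ≤ N`, is
   within `C N ^ (-1/7265)` of `y`.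

The proof: a large discrepancy at `N` gives a fraction `a / q` with `q ≤ 8 L / D` and `q |q x - a| ≤ 8 L / (D N)`,
`L = log_2 N + 1` (`Pool.Agent.V8H31.Disc`, helper31); a real number `y` far from all `n x - m` gives, with Dirichlet's
theorem, a fraction with small denominator. Seven such fractions contradict the simultaneous measure of the seven numbers in
the starting library (`MeasureZeta9To21`, exponent `1038`).
-/

namespace Pool.Agent.Results.MP_db0fbf_nt.EquidistributionOfMultiples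

open Finset Pool.Agent.V8H31.Disc Pool.Agent.V8H78.DB

/-- the odd numbers from `9` to `21` -/
def T : Finset ℕ := {9, 11, 13, 15, 17, 19, 21}

/-- `ζ(i) = ∑ 1/(n+1)^i` -/
noncomputable def zeta (i : ℕ) : ℝ := ∑' n : ℕ, 1 / ((n : ℝ) + 1) ^ i

theorem measure : ∃ c : ℝ, 0 < c ∧ Measure T zeta 1038 c := by
  obtain ⟨c, hc, h⟩ := Pool.Agent.TH900.YM.measure
  refine ⟨c, hc, fun a q hq => ?_⟩
  obtain ⟨j, hj, h1⟩ := h a q hq
  exact ⟨j, hj, h1⟩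

lemma card_T : T.card = 7 := rfl

theorem part1 : ∃ C : ℝ, ∀ N : ℕ → ℕ, (∀ j ∈ T, 1 ≤ N j) → ∃ j ∈ T,
    (N j : ℝ) * discrepancy (zeta j) (N j) ^ 1037 * ∏ i ∈ T.erase j, discrepancy (zeta i) (N i) ^ 1038 ≤
      C * ∏ i ∈ T, (1 + Real.log (N i)) ^ 1038 := by
  obtain ⟨c, hc, h⟩ := measure
  obtain ⟨C, -, hC⟩ := gen1 T zeta 1038 (by norm_num) c hc h
  exact ⟨C, hC⟩

theorem part2 : ∃ C : ℝ, ∀ N : ℕ, 1 ≤ N → ∃ j ∈ T,
    discrepancy (zeta j) N ≤ C * (1 + Real.log N) ^ (7266 / 7265 : ℝ) * (N : ℝ) ^ (-1 / 7265 : ℝ) := by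
  obtain ⟨c, hc, h⟩ := measure
  obtain ⟨C, hC⟩ := gen2 T ⟨9, by decide⟩ zeta 1038 (by norm_num) c hc h 7266 (by rw [card_T])
  refine ⟨C, fun N hN => ?_⟩
  obtain ⟨j, hj, h1⟩ := hC N hN
  refine ⟨j, hj, h1.trans (le_of_eq ?_)⟩
  rw [show ((7266 - 1 : ℕ) : ℝ) = 7265 by norm_num, show ((7266 : ℕ) : ℝ) = 7266 by norm_num]

theorem part3 (j₀ : ℕ) (hj₀ : j₀ ∈ T) (δ : ℝ) (hδ : 0 < δ) : ∃ C : ℝ, ∀ N : ℕ, 1 ≤ N →
    (∀ i ∈ T, i ≠ j₀ → δ ≤ discrepancy (zeta i) N) →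
    discrepancy (zeta j₀) N ≤ C * (1 + Real.log N) ^ 7 * (N : ℝ) ^ (-1 / 1038 : ℝ) := by
  obtain ⟨c, hc, h⟩ := measure
  obtain ⟨C, hC⟩ := gen3 T zeta 1038 (by norm_num) c hc h j₀ hj₀ δ hδ
  refine ⟨C, fun N hN hi => (hC N hN hi).trans (le_of_eq ?_)⟩
  rw [card_T, show ((1038 : ℕ) : ℝ) = 1038 by norm_num]

theorem part4 : ∃ C : ℝ, ∀ (N : ℕ → ℕ) (ρ y : ℕ → ℝ), (∀ j ∈ T, 1 ≤ N j) → (∀ j ∈ T, 0 < ρ j) →
    (∀ j ∈ T, C < (N j : ℝ) * ρ j ^ 1037 * ∏ i ∈ T.erase j, ρ i ^ 1038) →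
    ∃ j ∈ T, ∃ (n : ℕ) (m : ℤ), 1 ≤ n ∧ n ≤ N j ∧ |(n : ℝ) * zeta j - m - y j| < ρ j := by
  obtain ⟨c, hc, h⟩ := measure
  obtain ⟨C, -, hC⟩ := gen4 T zeta 1038 (by norm_num) c hc h
  exact ⟨C, hC⟩

theorem part5 : ∃ C : ℝ, ∀ N : ℕ, 1 ≤ N → ∃ j ∈ T, ∀ y : ℝ, ∃ (n : ℕ) (m : ℤ), 1 ≤ n ∧ n ≤ N ∧
    |(n : ℝ) * zeta j - m - y| ≤ C * (N : ℝ) ^ (-1 / 7265 : ℝ) := by
  obtain ⟨c, hc, h⟩ := measure
  obtain ⟨C, hC⟩ := gen5 T ⟨9, by decide⟩ zeta 1038 (by norm_num) c hc h 7266 (by rw [card_T])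
  refine ⟨C, fun N hN => ?_⟩
  obtain ⟨j, hj, h1⟩ := hC N hN
  refine ⟨j, hj, fun y => ?_⟩
  obtain ⟨n, m, h2, h3, h4⟩ := h1 y
  refine ⟨n, m, h2, h3, h4.trans (le_of_eq ?_)⟩
  rw [show ((7266 - 1 : ℕ) : ℝ) = 7265 by norm_num]

/-- **The uniform distribution of the multiples of `ζ(9), ζ(11), …, ζ(21)`.** `T` is the set of the odd numbers from `9` to
`21` and `discrepancy x N` the discrepancy of `x, 2 x, …, N x` modulo one.

(1) There is `C` such that for all lengths `N_i ≥ 1`, `i ∈ T`, there is `j ∈ T` with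
`N_j D_j ^ 1037 ∏_(i ≠ j) D_i ^ 1038 ≤ C ∏_i (1 + log N_i) ^ 1038`, `D_i = discrepancy ζ(i) N_i`.
(2) There is `C` such that for all `N ≥ 1` one of the seven discrepancies at `N` is at most
`C (1 + log N) ^ (7266/7265) N ^ (-1/7265)`.
(3) For `j₀ ∈ T` and `δ > 0` there is `C` such that for all `N ≥ 1` for which the discrepancies of the other six numbers at `N`
are at least `δ`, the discrepancy of `ζ(j₀)` is at most `C (1 + log N) ^ 7 N ^ (-1/1038)`.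
(4) There is `C` such that for all `N_j ≥ 1`, `ρ_j > 0`, with `C < N_j ρ_j ^ 1037 ∏_(i ≠ j) ρ_i ^ 1038` for all `j ∈ T`, and all
real `y_j`, there are `j ∈ T`, `1 ≤ n ≤ N_j` and an integer `m` with `|n ζ(j) - m - y_j| < ρ_j`.
(5) There is `C` such that for all `N ≥ 1` there is `j ∈ T` such that for all real `y` there are `1 ≤ n ≤ N` and an integer `m`
with `|n ζ(j) - m - y| ≤ C N ^ (-1/7265)`. -/
theorem result :
    (∃ C : ℝ, ∀ N : ℕ → ℕ, (∀ j ∈ T, 1 ≤ N j) → ∃ j ∈ T,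
      (N j : ℝ) * discrepancy (zeta j) (N j) ^ 1037 * ∏ i ∈ T.erase j, discrepancy (zeta i) (N i) ^ 1038 ≤
        C * ∏ i ∈ T, (1 + Real.log (N i)) ^ 1038) ∧
    (∃ C : ℝ, ∀ N : ℕ, 1 ≤ N → ∃ j ∈ T,
      discrepancy (zeta j) N ≤ C * (1 + Real.log N) ^ (7266 / 7265 : ℝ) * (N : ℝ) ^ (-1 / 7265 : ℝ)) ∧
    (∀ j₀ ∈ T, ∀ δ : ℝ, 0 < δ → ∃ C : ℝ, ∀ N : ℕ, 1 ≤ N →
      (∀ i ∈ T, i ≠ j₀ → δ ≤ discrepancy (zeta i) N) →
      discrepancy (zeta j₀) N ≤ C * (1 + Real.log N) ^ 7 * (N : ℝ) ^ (-1 / 1038 : ℝ)) ∧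
    (∃ C : ℝ, ∀ (N : ℕ → ℕ) (ρ y : ℕ → ℝ), (∀ j ∈ T, 1 ≤ N j) → (∀ j ∈ T, 0 < ρ j) →
      (∀ j ∈ T, C < (N j : ℝ) * ρ j ^ 1037 * ∏ i ∈ T.erase j, ρ i ^ 1038) →
      ∃ j ∈ T, ∃ (n : ℕ) (m : ℤ), 1 ≤ n ∧ n ≤ N j ∧ |(n : ℝ) * zeta j - m - y j| < ρ j) ∧
    (∃ C : ℝ, ∀ N : ℕ, 1 ≤ N → ∃ j ∈ T, ∀ y : ℝ, ∃ (n : ℕ) (m : ℤ), 1 ≤ n ∧ n ≤ N ∧
      |(n : ℝ) * zeta j - m - y| ≤ C * (N : ℝ) ^ (-1 / 7265 : ℝ)) := by
  exact ⟨part1, part2, part3, part4, part5⟩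

end Pool.Agent.Results.MP_db0fbf_nt.EquidistributionOfMultiples
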