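import Pool.Agent.V8H31.ES.BeattyM
import Pool.Agent.TH900.YM.Meas

set_option autoImplicit false

/-!
# Multiplicative functions along `ζ(9), ζ(11), …, ζ(21)`

By a theorem of Daboussi a real number `x` is irrational if and only if `∑ g(n) e(n x)`, `n ≤ N`, is `o(N)` for every
multiplicative function `g` with values in the unit disc (for rational `x` Dirichlet characters are
counterexamples). It is not known that `ζ(9)` is irrational; one of `ζ(9), …, ζ(21)` is. Here it is shown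
that at every large scale `N` one of the seven numbers, `ζ(J N)`, has this property with a rate, uniformly
in all multiplicative functions, also for polynomial phases and for the Beatty sequence `⌊n ζ(J N)⌋`:

1. for each degree `d ≥ 1` there are `κ > 0` and `C` with `|∑_(n ≤ M) g(n) e(h P(n))| ≤ C N / √(log log N)` for all
   `M ≤ N`, `1 ≤ h ≤ N ^ κ`, all multiplicative `g` with values in the unit disc and all real polynomials `P` of degree
   `d` with leading coefficient `ζ(J N)`;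
2. `|∑_(n ≤ M) g(⌊n ζ⌋) - ζ⁻¹ ∑_(m ≤ M ζ) g(m)| ≤ C N / (log log N) ^ (1/4)`, `ζ = ζ(J N)`, for all `M ≤ N` and all
   multiplicative `g` with values in the unit disc.

The index `J N` does not depend on `g`, `d`, `P`, `h`, `M`.

The proof: at each large scale one of the seven numbers is badly approximable at this scale, by the
simultaneous measure of the starting library (`MeasureZeta9To21`); then the method of Daboussi and Kátai
(in the form of the seed module `W24.Katai`) with all primes up to a power of `N`, Weyl's inequality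
(`TH869.LPS.WeylQ`) for the correlations, and an approximation of arcs by second Bernoulli functions.
-/

namespace Pool.Agent.Results.MP_db0fbf_nt.MultiplicativeFunctions

open Finset Polynomial Pool.Agent.V8H31.ES

/-- the odd numbers from `9` to `21` -/
def T : Finset ℕ := {9, 11, 13, 15, 17, 19, 21}

/-- `ζ(i) = ∑ 1/(n+1)^i` -/
noncomputable def zeta (i : ℕ) : ℝ := ∑' n : ℕ, 1 / ((n : ℝ) + 1) ^ i

/-- `e(x) = exp(2 π i x)` -/
noncomputable def e (x : ℝ) : ℂ := Complex.exp (2 * Real.pi * x * Complex.I)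

/-- multiplicative functions with values in the unit disc -/
def Multiplicative (g : ℕ → ℂ) : Prop :=
  (∀ n, 0 < n → ‖g n‖ ≤ 1) ∧ ∀ m n : ℕ, 0 < m → 0 < n → Nat.Coprime m n → g (m * n) = g m * g n

theorem measure : ∃ c : ℝ, 0 < c ∧ Meas T zeta 1038 c := by
  obtain ⟨c, hc, h⟩ := Pool.Agent.TH900.YM.measure
  refine ⟨c, hc, fun a q hq => ?_⟩
  obtain ⟨j, hj, h1⟩ := h a q hq
  exact ⟨j, hj, h1⟩

lemma card_T : T.card = 7 := rfl

lemma summ (j : ℕ) (hj : 2 ≤ j) : Summable (fun n : ℕ => 1 / ((n : ℝ) + 1) ^ j) := by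
  have h := (summable_nat_add_iff (f := fun n : ℕ => 1 / (n : ℝ) ^ j) 1).2
    (Real.summable_one_div_nat_pow.2 (by omega))
  simpa using h

lemma zeta_gt (j : ℕ) (hj : 2 ≤ j) : 1 < zeta j := by
  have h := (summ j hj).sum_le_tsum (range 2) (fun n _ => by positivity)
  rw [sum_range_succ, sum_range_one] at h
  have h2 : (0 : ℝ) < 1 / (((1 : ℕ) : ℝ) + 1) ^ j := by positivity
  have h3 : 1 / (((0 : ℕ) : ℝ) + 1) ^ j = 1 := by simp
  unfold zeta
  linarith

lemma zeta_le (j : ℕ) (hj : 2 ≤ j) : zeta j ≤ 2 := by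
  have h1 : zeta j ≤ ∑' n : ℕ, 1 / ((n : ℝ) + 1) ^ 2 := by
    unfold zeta
    refine (summ j hj).tsum_le_tsum (fun n => ?_) (summ 2 le_rfl)
    apply one_div_le_one_div_of_le (by positivity)
    apply pow_le_pow_right₀ _ hj
    have : (0 : ℝ) ≤ n := Nat.cast_nonneg n
    linarith
  have h2 : ∑' n : ℕ, 1 / ((n : ℝ) + 1) ^ 2 = Real.pi ^ 2 / 6 := by
    have h3 := hasSum_zeta_two
    have h4 := (hasSum_nat_add_iff' (f := fun n : ℕ => 1 / (n : ℝ) ^ 2) 1).2 h3
    simp only [range_one, sum_singleton, Nat.cast_zero] at h4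
    norm_num at h4
    have h5 := h4.tsum_eq
    rw [← h5]
    congr 1
    funext n
    rw [one_div]
  have h3 : Real.pi ^ 2 ≤ 10 := by nlinarith [Real.pi_lt_d2, Real.pi_gt_three]
  rw [h2] at h1
  linarith

lemma two_le {j : ℕ} (hj : j ∈ T) : 2 ≤ j := by
  unfold T at hj
  fin_cases hj <;> norm_num

/-- a multiplicative function, with the value `0` at `0` -/
lemma fix {g : ℕ → ℂ} (hg : Multiplicative g) :
    Pool.Agent.W24.Katai.Mul1 (fun n => if n = 0 then 0 else g n) := by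
  refine ⟨fun n => ?_, fun m n h => ?_⟩
  · simp only
    split_ifs with h
    · simp
    · exact hg.1 n (Nat.pos_of_ne_zero h)
  · simp only
    by_cases hm : m = 0
    · simp [hm]
    by_cases hn : n = 0
    · simp [hn]
    rw [if_neg (mul_ne_zero hm hn), if_neg hm, if_neg hn]
    exact hg.2 m n (Nat.pos_of_ne_zero hm) (Nat.pos_of_ne_zero hn) h

/-- **Multiplicative functions along `ζ(9), ζ(11), …, ζ(21)`.** -/
theorem result : ∃ J : ℕ → ℕ, (∀ N, J N ∈ T) ∧
    (∀ d : ℕ, 1 ≤ d → ∃ (κ C : ℝ) (N₀ : ℕ), 0 < κ ∧ ∀ N : ℕ, N₀ ≤ N → 1 ≤ Real.log (Real.log N) ∧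
      ∀ g : ℕ → ℂ, Multiplicative g → ∀ P : ℝ[X], P.natDegree ≤ d → P.coeff d = zeta (J N) →
      ∀ M : ℕ, M ≤ N → ∀ h : ℕ, 1 ≤ h → (h : ℝ) ≤ (N : ℝ) ^ κ →
        ‖∑ n ∈ Icc 1 M, g n * e (h * P.eval (n : ℝ))‖ ≤ C * (N / √(Real.log (Real.log N)))) ∧
    (∃ (C : ℝ) (N₀ : ℕ), ∀ N : ℕ, N₀ ≤ N → 1 ≤ Real.log (Real.log N) ∧
      ∀ g : ℕ → ℂ, Multiplicative g → ∀ M : ℕ, M ≤ N →
        ‖∑ n ∈ Icc 1 M, g ⌊(n : ℝ) * zeta (J N)⌋₊ -
            ((1 / zeta (J N) : ℝ) : ℂ) * ∑ m ∈ Icc 1 ⌊(M : ℝ) * zeta (J N)⌋₊, g m‖ ≤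
          C * (N / (Real.log (Real.log N)) ^ (1 / 4 : ℝ))) := by
  obtain ⟨c, hc, hm⟩ := measure
  obtain ⟨J, N₀, hJ, hfar⟩ := choice T ⟨9, by decide⟩ zeta 1038 c hc hm
  have hc0 : (1 / ((T.card : ℝ) * (1038 : ℕ) + 2 : ℝ)) = 1 / 7268 := by
    rw [card_T]; norm_num
  rw [hc0] at hfar
  refine ⟨J, hJ, fun d hd => ?_, ?_⟩
  · obtain ⟨κ, C, N1, hκ, hC, h1⟩ := mult_far (1 / 7268) (by norm_num) (by norm_num) d hd
    refine ⟨κ, C, max N₀ N1, hκ, fun N hN => ?_⟩
    obtain ⟨hN1, hf⟩ := hfar N ((le_max_left _ _).trans hN)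
    obtain ⟨hll, h2⟩ := h1 N ((le_max_right _ _).trans hN)
    refine ⟨hll, fun g hg P hP hPd M hM h hh1 hhN => ?_⟩
    have h3 := h2 _ hf P hP hPd _ (fix hg) M hM h hh1 hhN
    have h4 : ∑ n ∈ Icc 1 M, g n * e (h * P.eval (n : ℝ)) =
        ∑ n ∈ Ioc 0 M, (if n = 0 then 0 else g n) * Pool.Agent.V8H31.ES.e (h * P.eval (n : ℝ)) := by
      refine sum_congr rfl fun n hn => ?_
      have hn1 := (mem_Ioc.1 hn).1
      rw [if_neg (by omega)]
      rfl
    rw [h4]
    exact h3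
  · obtain ⟨C, N1, hC, h1⟩ := beatty_mult_far (1 / 7268) (by norm_num) (by norm_num)
    refine ⟨C, max N₀ N1, fun N hN => ?_⟩
    obtain ⟨hN1, hf⟩ := hfar N ((le_max_left _ _).trans hN)
    obtain ⟨hll, h2⟩ := h1 N ((le_max_right _ _).trans hN)
    refine ⟨hll, fun g hg M hM => ?_⟩
    have hz := zeta_gt _ (two_le (hJ N))
    have h3 := h2 _ hz (zeta_le _ (two_le (hJ N))) hf _ (fix hg) M hM
    have h4 : ∑ n ∈ Icc 1 M, g ⌊(n : ℝ) * zeta (J N)⌋₊ =
        ∑ n ∈ Icc 1 M, (if ⌊(n : ℝ) * zeta (J N)⌋₊ = 0 then 0 else g ⌊(n : ℝ) * zeta (J N)⌋₊) := by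
      refine sum_congr rfl fun n hn => ?_
      rw [mem_Icc] at hn
      have h5 : 1 ≤ ⌊(n : ℝ) * zeta (J N)⌋₊ := by
        apply Nat.le_floor
        have : (1 : ℝ) ≤ n := by exact_mod_cast hn.1
        push_cast
        nlinarith
      rw [if_neg (by omega)]
    have h5 : ∑ m ∈ Icc 1 ⌊(M : ℝ) * zeta (J N)⌋₊, g m =
        ∑ m ∈ Icc 1 ⌊(M : ℝ) * zeta (J N)⌋₊, (if m = 0 then 0 else g m) := by
      refine sum_congr rfl fun m hm => ?_
      rw [mem_Icc] at hm
      rw [if_neg (by omega)]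
    rw [h4, h5]
    exact h3

end Pool.Agent.Results.MP_db0fbf_nt.MultiplicativeFunctions
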