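import Pool.Agent.N553.PC.Cut
import Pool.Agent.R473.FV.Cor
import Pool.Agent.TH900.YM.Meas

/-!
# The digits of `ζ(9), ζ(11), …, ζ(21)`: few pieces of small linear complexity, and finite-state predictors

A sequence has linear complexity at most `m` if it satisfies a linear recurrence of order `m` over `ℚ`; a number is
rational if and only if the sequence of its digits has finite linear complexity, and if and only if some finite automaton
which reads the digits one after the other and predicts the next one makes only finitely many errors. One of the seven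
numbers `ζ(9), …, ζ(21)` is irrational (`OddZeta9To21`), and by the starting result `DigitComplexity` the linear
complexities of their first `N` digits are large together, also after a few changes of digits. Here we consider devices
with MANY recurrences: the first `N` digits are cut at some places into pieces, and every piece satisfies a recurrence of
order `m` of its own (for example the recurrence may be found anew from the digits after each failure of the last one, as
the algorithm of Berlekamp and Massey does), and finite automata.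

(1) If the first `N` digits in base `b` of all the seven numbers are cut at the same `r` places, and on each piece there
is a common recurrence of order `m` for the seven numbers, then
`N ≤ (1038 + 1038² + ⋯ + 1038^(r+1)) (m + C √((m+1) log (m+2)))`.

(2) The same with `r = ∑ r_j`, `m = ∑ m_j` if the digits of the `j`-th number are cut at `r_j` places of its own into pieces
with recurrences of order `m_j`.

(3) If `θ + 49 c < 1` then at EVERY large scale `N`, in every base `b`, the first `N` digits of one of the seven numbers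
are not cut at `c log N` places into pieces with recurrences of order `N^θ`. Here `N ≥ N₀`, where `N₀` does not depend
on the base.

(4) An inequality for seven automata, with `Q_j` states, which predict the first `N_j` digits of the `j`-th number in a base
`b_j` of its own, with `e_j` errors: the least of the numbers `N_j log b_j` is at most
`(∑_(i ≤ ∑ e_j) 7266^i) (1038 ∑ (Q_j + 1) log b_j + C)`, `7266 = 7 · 1038`.

(5) For every `θ < 1` one of the seven numbers is such that in EVERY base, for infinitely many `N`, all predictors with at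
most `N^θ` states make more than `((1 - θ)/63) log N` errors on the first `N` digits.

The proof: the simultaneous measure of the starting library (`MeasureZeta9To21`, exponent `1038`), the tools
`Pool.Agent.R473.FP.pieces`, `Pool.Agent.R473.FV` (starting library), and for (2) and (3) the fact that sequences with
recurrences of orders `m_j` have a common recurrence of order `∑ m_j` (`Pool.Agent.N553.PC.common`).
-/

set_option autoImplicit false

open Finset

namespace Pool.Agent.Results.MP_db0fbf_nt.PiecesAndPredictors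

/-- the `i`-th digit of `x` after the point in base `b` -/
noncomputable def digit (b : ℕ) (x : ℝ) (i : ℕ) : ℤ := ⌊x * (b : ℝ) ^ i⌋ % (b : ℤ)

/-- The `(u+1)`-st, …, `v`-th digits of `x` in base `b` satisfy the linear recurrence of order `m` with the
coefficients `c`. -/
def Recurrence (b : ℕ) (x : ℝ) (m : ℕ) (c : ℕ → ℚ) (u v : ℕ) : Prop :=
  ∀ i, u ≤ i → i + m < v →
    (digit b x (i + m + 1) : ℚ) = ∑ l ∈ range m, c l * (digit b x (i + l + 1) : ℚ)

/-- Every block `u+1, …, v` of the first `N` places which contains no place `i + 1` with `i ∈ E` is such that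
the digits of `x` at these places satisfy a linear recurrence of order `m` over `ℚ` (which may depend on
the block). So the first `N` digits are cut at the places in `E` into pieces of linear complexity at most `m`. -/
def Cut (b : ℕ) (x : ℝ) (N m : ℕ) (E : Finset ℕ) : Prop :=
  ∀ u v, u ≤ v → v ≤ N → (∀ i ∈ E, i < u ∨ v ≤ i) → ∃ c : ℕ → ℚ, Recurrence b x m c u v

/-- The same for all the numbers `x j` at once, with common recurrences. -/
def CommonCut {J : ℕ} (b : ℕ) (x : Fin J → ℝ) (N m : ℕ) (E : Finset ℕ) : Prop :=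
  ∀ u v, u ≤ v → v ≤ N → (∀ i ∈ E, i < u ∨ v ≤ i) → ∃ c : ℕ → ℚ, ∀ j, Recurrence b (x j) m c u v

/-- A predictor: a finite automaton with `Q` states, transitions `δ`, initial state `q₀` and
predictions `out`. -/
structure Predictor where
  /-- the number of states -/
  Q : ℕ
  /-- the next state -/
  δ : Fin Q → ℤ → Fin Q
  /-- the initial state -/
  q₀ : Fin Q
  /-- the prediction -/
  out : Fin Q → ℤ

/-- the state of the predictor after it has read `d 1, …, d n` -/
def Predictor.state (M : Predictor) (d : ℕ → ℤ) (n : ℕ) : Fin M.Q :=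
  Pool.Agent.R473.FP.run M.δ M.q₀ d n

/-- the number of errors on the first `N` terms of `d`: the number of `n < N` such that the
prediction made after reading `d 1, …, d n` is not `d (n + 1)` -/
def Predictor.errors (M : Predictor) (d : ℕ → ℤ) (N : ℕ) : ℕ :=
  ((range N).filter fun n => M.out (M.state d n) ≠ d (n + 1)).card

/-- the numbers `ζ(9), ζ(11), …, ζ(21)`, for `i = 0, …, 6` -/
noncomputable def number (i : Fin 7) : ℝ := ∑' n : ℕ, 1 / ((n : ℝ) + 1) ^ (2 * (i : ℕ) + 9)

/-- the simultaneous measure -/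
theorem meas0 : ∃ c : ℝ, 0 < c ∧ ∀ q : ℕ, 1 ≤ q → ∀ p : Fin 7 → ℤ, ∃ i, c ≤ (q : ℝ) ^ ((1038 : ℝ) - 1) *
    |(q : ℝ) * number i - p i| := by
  obtain ⟨c, hc, h⟩ := Pool.Agent.TH900.YM.measure
  refine ⟨c, hc, fun q hq p => ?_⟩
  have hq0 : (0 : ℝ) < q := by exact_mod_cast hq
  obtain ⟨j, hj, hv⟩ := h (fun j => if hj : (j - 9) / 2 < 7 then p ⟨(j - 9) / 2, hj⟩ else 0) q hq
  have e1 : (q : ℝ) ^ ((1038 : ℝ) - 1) = (q : ℝ) ^ 1037 := by
    rw [← Real.rpow_natCast]
    norm_num
  have key : ∀ i : Fin 7, j = 2 * (i : ℕ) + 9 → ∃ i, c ≤ (q : ℝ) ^ ((1038 : ℝ) - 1) *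
      |(q : ℝ) * number i - p i| := by
    intro i hij
    refine ⟨i, ?_⟩
    subst hij
    have h1 : (2 * (i : ℕ) + 9 - 9) / 2 = i := by omega
    have h2 : (2 * (i : ℕ) + 9 - 9) / 2 < 7 := by omega
    rw [dif_pos h2] at hv
    have h3 : (⟨(2 * (i : ℕ) + 9 - 9) / 2, h2⟩ : Fin 7) = i := Fin.ext h1
    rw [h3] at hv
    have h4 : c / (q : ℝ) ^ 1038 ≤ |number i - (p i : ℝ) / q| := hv
    rw [div_le_iff₀ (by positivity)] at h4
    have e2 : |(q : ℝ) * number i - p i| = q * |number i - (p i : ℝ) / q| := by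
      nth_rewrite 2 [← abs_of_pos hq0]
      rw [← abs_mul]
      congr 1
      field_simp
    rw [e1, e2]
    calc c ≤ |number i - (p i : ℝ) / q| * (q : ℝ) ^ 1038 := h4
      _ = _ := by ring
  fin_cases hj
  · exact key 0 rfl
  · exact key 1 rfl
  · exact key 2 rfl
  · exact key 3 rfl
  · exact key 4 rfl
  · exact key 5 rfl
  · exact key 6 rfl

theorem meas : ∃ c : ℝ, 0 < c ∧ Pool.Agent.W47.JL.Meas 7 number 1038 c 0 := by
  obtain ⟨c, hc, h⟩ := meas0
  refine ⟨c, hc, fun q hq p => ?_⟩
  obtain ⟨i, hi⟩ := h q hq p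
  refine ⟨i, ?_⟩
  rw [Real.rpow_zero, mul_one]
  exact hi

theorem log_num : 7 * Real.log 1038 < 49 := by
  suffices h : Real.log 1038 < 7 by linarith
  rw [Real.log_lt_iff_lt_exp (by positivity)]
  have h2 : Real.exp 7 = Real.exp 1 ^ 7 := by
    rw [← Real.exp_nat_mul]
    norm_num
  have h3 := Real.exp_one_gt_d9
  rw [h2]
  calc (1038 : ℝ) < 2.7182818283 ^ 7 := by norm_num
    _ ≤ _ := pow_le_pow_left₀ (by norm_num) h3.le 7

theorem log_num2 : 7 * Real.log (7 * 1038) < 63 := by
  suffices h : Real.log (7 * 1038) < 9 by linarith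
  rw [Real.log_lt_iff_lt_exp (by positivity)]
  have h2 : Real.exp 9 = Real.exp 1 ^ 9 := by
    rw [← Real.exp_nat_mul]
    norm_num
  have h3 := Real.exp_one_gt_d9
  rw [h2]
  calc (7 * 1038 : ℝ) < 2.7182818283 ^ 9 := by norm_num
    _ ≤ _ := pow_le_pow_left₀ (by norm_num) h3.le 9

/-- **The digits of `ζ(9), ζ(11), …, ζ(21)`: few pieces of small linear complexity, and finite-state predictors.** -/
theorem result : (∀ i : Fin 7, ((number i : ℝ) : ℂ) = riemannZeta ((2 * (i : ℕ) + 9 : ℕ) : ℂ)) ∧
    (∃ C : ℝ, 0 < C ∧ ∀ b : ℕ, 2 ≤ b → ∀ N : ℕ,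
      -- (1) common places, common recurrences
      (∀ (m : ℕ) (E : Finset ℕ), CommonCut b number N m E →
        (N : ℝ) ≤ (∑ i ∈ range (E.card + 1), (1038 : ℝ) ^ (i + 1)) *
          (m + C * Real.sqrt (((m : ℝ) + 1) * Real.log ((m : ℝ) + 2)))) ∧
      -- (2) for each number places and recurrences of its own
      ∀ (m : Fin 7 → ℕ) (E : Fin 7 → Finset ℕ), (∀ j, Cut b (number j) N (m j) (E j)) →
        (N : ℝ) ≤ (∑ i ∈ range (∑ j, (E j).card + 1), (1038 : ℝ) ^ (i + 1)) *
          ((∑ j, m j : ℕ) +
            C * Real.sqrt ((((∑ j, m j : ℕ) : ℝ) + 1) * Real.log (((∑ j, m j : ℕ) : ℝ) + 2)))) ∧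
    -- (3) at every large scale one of the numbers is not cut into few pieces of small complexity
    (∀ θ c : ℝ, 0 ≤ θ → 0 ≤ c → θ + 49 * c < 1 → ∃ N₀ : ℕ, ∀ b : ℕ, 2 ≤ b → ∀ N : ℕ, N₀ ≤ N →
      ∃ j, ∀ (m : ℕ) (E : Finset ℕ), (m : ℝ) ≤ (N : ℝ) ^ θ → (E.card : ℝ) ≤ c * Real.log N →
        ¬ Cut b (number j) N m E) ∧
    -- (4) seven predictors, each with a base and a length of its own
    (∃ C : ℝ, ∀ (b : Fin 7 → ℕ) (M : Fin 7 → Predictor) (N : Fin 7 → ℕ), (∀ j, 2 ≤ b j) →
      ∃ j, N j * Real.log (b j) ≤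
        (∑ i ∈ range (∑ j, (M j).errors (digit (b j) (number j)) (N j) + 1), (7266 : ℝ) ^ i) *
          (1038 * ∑ j, (((M j).Q : ℝ) + 1) * Real.log (b j) + C)) ∧
    -- (5) one of the numbers is hard to predict in all bases
    ∀ θ : ℝ, 0 ≤ θ → θ < 1 → ∃ j, ∀ b : ℕ, 2 ≤ b → ∀ N₀ : ℕ, ∃ N : ℕ, N₀ ≤ N ∧ ∀ M : Predictor,
      (M.Q : ℝ) ≤ (N : ℝ) ^ θ → (1 - θ) / 63 * Real.log N < M.errors (digit b (number j)) N := by
  obtain ⟨c0, hc0, hM⟩ := meas
  obtain ⟨c1, hc1, hM1⟩ := meas0
  refine ⟨fun i => ?_, ?_, fun θ c hθ hc hlt => ?_, ⟨Real.log 2 + |Real.log c1|, fun b M N hb => ?_⟩,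
    fun θ h0 h1 => ?_⟩
  · rw [zeta_eq_tsum_one_div_nat_add_one_cpow (by simp; linarith), number, Complex.ofReal_tsum]
    refine tsum_congr fun n => ?_
    rw [Complex.cpow_natCast]
    push_cast
    rfl
  · obtain ⟨C1, hC1, h1⟩ := Pool.Agent.R473.FP.pieces 7 number 1038 c0 0 (by norm_num) hc0 le_rfl hM
    obtain ⟨C2, hC2, h2⟩ := Pool.Agent.N553.PC.cut_sep 7 number 1038 c0 0 (by norm_num) hc0 le_rfl hM
    have mono : ∀ (C' : ℝ) (m : ℕ) (S N : ℝ), C' ≤ max C1 C2 → 0 ≤ S →
        N ≤ S * (m + C' * Pool.Agent.W47.JL.err m) →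
        N ≤ S * (m + max C1 C2 * Real.sqrt (((m : ℝ) + 1) * Real.log ((m : ℝ) + 2))) := by
      intro C' m S N hC' hS h
      refine h.trans (mul_le_mul_of_nonneg_left ?_ hS)
      have h0 : 0 ≤ Real.sqrt (((m : ℝ) + 1) * Real.log ((m : ℝ) + 2)) := Real.sqrt_nonneg _
      exact add_le_add le_rfl (mul_le_mul_of_nonneg_right hC' h0)
    refine ⟨max C1 C2, lt_max_of_lt_left hC1, fun b hb N => ⟨fun m E hE => ?_, fun m E hE => ?_⟩⟩
    · refine mono C1 m _ _ (le_max_left _ _) (Finset.sum_nonneg fun i _ => by positivity) ?_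
      refine h1 b hb N m E.card E le_rfl fun u v huv hvN hE' => ?_
      obtain ⟨c, hc⟩ := hE u v huv hvN hE'
      exact ⟨c, fun j i hi hiv => hc j i hi hiv⟩
    · exact mono C2 _ _ _ (le_max_right _ _) (Finset.sum_nonneg fun i _ => by positivity)
        (h2 b hb N m E hE)
  · obtain ⟨N₀, h⟩ := Pool.Agent.N553.PC.cut_large 7 number 1038 c0 0 (by norm_num) hc0 le_rfl hM θ c
      hθ hc (by
        push_cast
        have h1 := mul_le_mul_of_nonneg_left log_num.le hc
        linarith)
    exact ⟨N₀, h⟩
  · have h := Pool.Agent.R473.FV.separate number 1038 c1 (by norm_num) hc1 hM1 b hb (fun j => (M j).Q)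
      (fun j => (M j).δ) (fun j => (M j).q₀) (fun j => (M j).out) N
    rw [Fintype.card_fin] at h
    have e : ((7 : ℕ) : ℝ) * 1038 = 7266 := by norm_num
    rw [e] at h
    exact h
  · obtain ⟨j, h⟩ := Pool.Agent.R473.FV.some_number number 1038 c1 (by norm_num) hc1 hM1 θ
      ((1 - θ) / 63) h0 (by
        have : 0 < 1 - θ := by linarith
        positivity) (by
        rw [Fintype.card_fin]
        have h2 : 0 < 1 - θ := by linarith
        rw [div_mul_eq_mul_div, div_lt_iff₀ (by norm_num)]
        push_cast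
        exact mul_lt_mul_of_pos_left log_num2 h2)
    exact ⟨j, fun b hb N₀ => by
      obtain ⟨N, hN, h4⟩ := h b hb N₀
      exact ⟨N, hN, fun M hQ => h4 M.Q M.δ M.q₀ M.out hQ⟩⟩

end Pool.Agent.Results.MP_db0fbf_nt.PiecesAndPredictors
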