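import Pool.Agent.V8H31.ES.Fin
import Pool.Agent.TH900.YM.Meas

set_option autoImplicit false

/-!
# Primes, Beatty sequences and polynomials along `ζ(9), ζ(11), …, ζ(21)`

If `x` is rational, the numbers `p x`, `p` prime, take finitely many values modulo one, the Beatty
sequence `⌊n x⌋` does not contain its expected share of primes in general, and `x n ^ d` is periodic
modulo one. For irrational `x` the theorems of Vinogradov and Weyl give uniform distribution. It is not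
known that `ζ(9)` is irrational; one of the seven numbers `ζ(9), …, ζ(21)` is. Here it is shown that
at every scale `N` one of the seven numbers, `ζ(J N)`, behaves with a power saving in all of these respects at
once (the index `J N` does not depend on the problem):

1. exponential sums over the primes up to `M ≤ N` (also with the weights `Λ(n)`) with all frequencies
   `1 ≤ h ≤ N ^ (1/116288)` are at most `C N ^ (1 - 1/116288)`;
2. every arc of length `ℓ` modulo one contains `ℓ π(M) + O(N ^ (1 - 1/232576))` of the numbers `p ζ(J N)`, `p ≤ M`;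
3. the number of primes among `⌊n ζ(J N)⌋`, `n ≤ M`, is `π(M ζ(J N)) / ζ(J N) + O(N ^ (1 - 1/465152))`;
4. for each degree `d ≥ 1` there is `κ > 0` such that all exponential sums of length `M ≤ N` with polynomials
   `h P`, `1 ≤ h ≤ N ^ κ`, `P` any real polynomial of degree `d` with leading coefficient `ζ(J N)`, are
   `O(N ^ (1 - κ))`, and every arc contains `ℓ M + O(N ^ (1 - κ))` of the values `P(n)`, `n < M`, uniformly in `P`.

The proof: the simultaneous measure of the starting library (`MeasureZeta9To21`, exponent `1038`) shows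
that for each large `N` one of the seven numbers has no multiple `m ζ(j)`, `m ≤ N ^ (1/7268)`, within
`N ^ (1/7268 - 1)` of an integer. Then the estimates of Vinogradov (in the form of the seed module
`Y885.VM`) and Weyl (`TH869.LPS.WeylQ`) apply; arcs are treated by an inequality of Erdős–Turán type
(`V8H31/ES/Beta.lean`).
-/

namespace Pool.Agent.Results.MP_db0fbf_nt.PrimesAndPolynomials

open Finset Polynomial Pool.Agent.V8H31.ES

/-- the odd numbers from `9` to `21` -/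
def T : Finset ℕ := {9, 11, 13, 15, 17, 19, 21}

/-- `ζ(i) = ∑ 1/(n+1)^i` -/
noncomputable def zeta (i : ℕ) : ℝ := ∑' n : ℕ, 1 / ((n : ℝ) + 1) ^ i

/-- `e(x) = exp(2 π i x)` -/
noncomputable def e (x : ℝ) : ℂ := Complex.exp (2 * Real.pi * x * Complex.I)

/-- the primes up to `M` -/
def primesTo (M : ℕ) : Finset ℕ := {p ∈ Icc 1 M | p.Prime}

theorem measure : ∃ c : ℝ, 0 < c ∧ Meas T zeta 1038 c := by
  obtain ⟨c, hc, h⟩ := Pool.Agent.TH900.YM.measure
  refine ⟨c, hc, fun a q hq => ?_⟩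
  obtain ⟨j, hj, h1⟩ := h a q hq
  exact ⟨j, hj, h1⟩

lemma card_T : T.card = 7 := rfl

lemma summ (j : ℕ) (hj : 2 ≤ j) : Summable (fun n : ℕ => 1 / ((n : ℝ) + 1) ^ j) := by
  have h := (summable_nat_add_iff (f := fun n : ℕ => 1 / (n : ℝ) ^ j) 1).2
    (Real.summable_one_div_nat_pow.2 (by omega))
  simpa using h

lemma zeta_gt (j : ℕ) (hj : 2 ≤ j) : 1 < zeta j := by
  have h := (summ j hj).sum_le_tsum (range 2) (fun n _ => by positivity)
  rw [sum_range_succ, sum_range_one] at h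
  have h2 : (0 : ℝ) < 1 / (((1 : ℕ) : ℝ) + 1) ^ j := by positivity
  have h3 : 1 / (((0 : ℕ) : ℝ) + 1) ^ j = 1 := by simp
  unfold zeta
  linarith

lemma zeta_le (j : ℕ) (hj : 2 ≤ j) : zeta j ≤ 2 := by
  have h1 : zeta j ≤ ∑' n : ℕ, 1 / ((n : ℝ) + 1) ^ 2 := by
    unfold zeta
    refine (summ j hj).tsum_le_tsum (fun n => ?_) (summ 2 le_rfl)
    apply one_div_le_one_div_of_le (by positivity)
    apply pow_le_pow_right₀ _ hj
    have : (0 : ℝ) ≤ n := Nat.cast_nonneg n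
    linarith
  have h2 : ∑' n : ℕ, 1 / ((n : ℝ) + 1) ^ 2 = Real.pi ^ 2 / 6 := by
    have h3 := hasSum_zeta_two
    have h4 := (hasSum_nat_add_iff' (f := fun n : ℕ => 1 / (n : ℝ) ^ 2) 1).2 h3
    simp only [range_one, sum_singleton, Nat.cast_zero] at h4
    norm_num at h4
    have h5 := h4.tsum_eq
    rw [← h5]
    congr 1
    funext n
    rw [one_div]
  have h3 : Real.pi ^ 2 ≤ 10 := by nlinarith [Real.pi_lt_d2, Real.pi_gt_three]
  rw [h2] at h1
  linarith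

lemma two_le {j : ℕ} (hj : j ∈ T) : 2 ≤ j := by
  unfold T at hj
  fin_cases hj <;> norm_num

/-- **Primes, Beatty sequences and polynomials along `ζ(9), ζ(11), …, ζ(21)`.** -/
theorem result : ∃ J : ℕ → ℕ, (∀ N, J N ∈ T) ∧
    (∃ (C : ℝ) (N₀ : ℕ), ∀ N : ℕ, N₀ ≤ N → ∀ M : ℕ, M ≤ N →
      (∀ h : ℕ, 1 ≤ h → (h : ℝ) ≤ (N : ℝ) ^ (1 / 116288 : ℝ) →
        ‖∑ p ∈ primesTo M, e (h * (p * zeta (J N)))‖ ≤ C * (N : ℝ) ^ (1 - 1 / 116288 : ℝ) ∧
        ‖∑ n ∈ Icc 1 M, ((ArithmeticFunction.vonMangoldt n : ℝ) : ℂ) * e (h * (n * zeta (J N)))‖ ≤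
          C * (N : ℝ) ^ (1 - 1 / 116288 : ℝ)) ∧
      (∀ u ℓ : ℝ, 0 ≤ ℓ → ℓ ≤ 1 →
        |(#((primesTo M).filter fun p : ℕ => Int.fract ((p : ℝ) * zeta (J N) - u) < ℓ) : ℝ) -
            ℓ * #(primesTo M)| ≤ C * (N : ℝ) ^ (1 - 1 / 232576 : ℝ)) ∧
      |(#((Icc 1 M).filter fun n : ℕ => (⌊(n : ℝ) * zeta (J N)⌋₊).Prime) : ℝ) -
          #(primesTo ⌊(M : ℝ) * zeta (J N)⌋₊) / zeta (J N)| ≤ C * (N : ℝ) ^ (1 - 1 / 465152 : ℝ)) ∧
    (∀ d : ℕ, 1 ≤ d → ∃ (κ C : ℝ) (N₀ : ℕ), 0 < κ ∧ ∀ N : ℕ, N₀ ≤ N → ∀ P : ℝ[X], P.natDegree ≤ d →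
      P.coeff d = zeta (J N) → ∀ M : ℕ, M ≤ N →
        (∀ h : ℕ, 1 ≤ h → (h : ℝ) ≤ (N : ℝ) ^ κ →
          ‖∑ n ∈ range M, e (h * P.eval (n : ℝ))‖ ≤ C * (N : ℝ) ^ (1 - κ)) ∧
        (∀ u ℓ : ℝ, 0 ≤ ℓ → ℓ ≤ 1 →
          |(#((range M).filter fun n : ℕ => Int.fract (P.eval (n : ℝ) - u) < ℓ) : ℝ) - ℓ * M| ≤
            C * (N : ℝ) ^ (1 - κ))) := by
  obtain ⟨c, hc, hm⟩ := measure
  obtain ⟨J, N₀, hJ, hfar⟩ := choice T ⟨9, by decide⟩ zeta 1038 c hc hm
  have hc0 : (1 / ((T.card : ℝ) * (1038 : ℕ) + 2 : ℝ)) = 1 / 7268 := by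
    rw [card_T]; norm_num
  rw [hc0] at hfar
  refine ⟨J, hJ, ?_, fun d hd => ?_⟩
  · obtain ⟨C1, hC1, h1⟩ := primes_far (1 / 7268) (by norm_num) (by norm_num)
    obtain ⟨C2, N2, hC2, h2⟩ := beatty_far (1 / 7268) (by norm_num) (by norm_num)
    refine ⟨C1 + C2, max N₀ N2, fun N hN M hM => ?_⟩
    have hNa : N₀ ≤ N := le_trans (le_max_left _ _) hN
    have hNb : N2 ≤ N := le_trans (le_max_right _ _) hN
    obtain ⟨hN1, hf⟩ := hfar N hNa
    obtain ⟨h3, h4⟩ := h1 N hN1 _ hf M hM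
    have h5 := h2 N hNb _ (zeta_gt _ (two_le (hJ N))) (zeta_le _ (two_le (hJ N))) hf M hM
    have e1 : (1 / 7268 / 16 : ℝ) = 1 / 116288 := by norm_num
    have e2 : (1 / 7268 / 32 : ℝ) = 1 / 232576 := by norm_num
    have e3 : (1 / 7268 / 64 : ℝ) = 1 / 465152 := by norm_num
    rw [e1] at h3
    rw [e2] at h4
    rw [e3] at h5
    have hp1 : 0 ≤ (N : ℝ) ^ (1 - 1 / 116288 : ℝ) := by positivity
    have hp2 : 0 ≤ (N : ℝ) ^ (1 - 1 / 232576 : ℝ) := by positivity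
    have hp3 : 0 ≤ (N : ℝ) ^ (1 - 1 / 465152 : ℝ) := by positivity
    refine ⟨fun h hh1 hhN => ⟨?_, ?_⟩, fun u ℓ hl0 hl1 => ?_, ?_⟩
    · refine (h3 h hh1 hhN).1.trans ?_
      gcongr
      linarith
    · refine (h3 h hh1 hhN).2.trans ?_
      gcongr
      linarith
    · refine (h4 u ℓ hl0 hl1).trans ?_
      gcongr
      linarith
    · refine h5.trans ?_
      gcongr
      linarith
  · obtain ⟨κ, hκ, C, hC, h1⟩ := poly_far (1 / 7268) (by norm_num) d hd
    refine ⟨κ, C, N₀, hκ, fun N hN P hP hPd M hM => ?_⟩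
    obtain ⟨hN1, hf⟩ := hfar N hN
    exact h1 N hN1 _ hf P hP hPd M hM

end Pool.Agent.Results.MP_db0fbf_nt.PrimesAndPolynomials
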